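import Pool.Agent.H26.ES.TargetsF
import Pool.Agent.H31.PL.Targets
import Pool.Agent.H65.EN.Targets

/-!
# The critical mean value, the ends for the exponent one half: definitions (helper79)

`Φ` is the gain function: `Φ L = L` for the ladders, `Φ L = L * log (3 + L)` for the doubling.
-/

set_option autoImplicit false

open Finset MeasureTheory

namespace Pool.Agent.H79.HF

open Pool.Agent.H24.CL Pool.Agent.H24.LV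

/-- the conditions on the gain function -/
structure GainF (Φ : ℝ → ℝ) : Prop where
  lo : ∀ L : ℝ, Real.log 2 ≤ L → L ≤ Φ L
  mo : ∀ L L' : ℝ, Real.log 2 ≤ L → L ≤ L' → Φ L ≤ Φ L'

/-- SRP with the gain `x ^ 2 / Φ (log M)` -/
def T_SRPg (Φ : ℝ → ℝ) : Prop :=
  ∀ k : ℕ, 3 ≤ k → ∀ C₃ ε : ℝ, 1 ≤ C₃ → 0 < ε → ε ≤ 1 → ∃ c₀ x₀ : ℝ, 0 < c₀ ∧ 1 ≤ x₀ ∧
    ∀ (M x H : ℝ) (N₁ : ℕ), 2 ≤ M → x₀ ≤ x → x ≤ Real.log M → 0 ≤ H →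
    H + 1 ≤ c₀ * x ^ 2 / Φ (Real.log M) → M * Real.exp x ≤ N₁ → (N₁ : ℝ) ≤ M * Real.exp (2 * x) →
    M ^ (KN k) * Real.exp (-H) ≤ (N₁ : ℝ) ^ (KN k) *
      volume.real {a : X k | M ^ (-(1 / 2 : ℝ)) ≤ ‖u N₁ a‖} →
    ∃ (N₀ : ℕ) (S : Finset ℕ), M * Real.exp (x / 2) ≤ N₀ ∧ N₀ ≤ N₁ ∧ (∀ p ∈ S, p.Prime) ∧
      M ^ C₃ ≤ (DS S : ℝ) ∧
      M ^ (KN k) * Real.exp (-ε * x) ≤ (N₀ : ℝ) ^ (KN k) * volume.real {w : X k | ∃ (b : X k)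
        (x' : ℕ), x' < DS S ∧ phi (DS S) x' b = w ∧
        Rich S {v : X k | M ^ (-(1 / 2 : ℝ)) / 8 ≤ ‖u N₀ v‖} (Real.exp (-ε * x)) b x'}

/-- the seen points with the gain `x ^ 2 / Φ (log M)` -/
def T_SEE (Φ : ℝ → ℝ) : Prop :=
  ∀ k : ℕ, 3 ≤ k → ∃ CR : ℝ, 1 ≤ CR ∧ ∀ ε : ℝ, 0 < ε → ε ≤ 1 / 8 → ∃ c₀ x₀ : ℝ, 0 < c₀ ∧
    1 ≤ x₀ ∧ ∀ (M x H : ℝ) (N₁ : ℕ), 2 ≤ M → x₀ ≤ x → x ≤ Real.log M → 0 ≤ H →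
    H + 1 ≤ c₀ * x ^ 2 / Φ (Real.log M) → M * Real.exp x ≤ N₁ → (N₁ : ℝ) ≤ M * Real.exp (2 * x) →
    M ^ (KN k) * Real.exp (-H) ≤ (N₁ : ℝ) ^ (KN k) *
      volume.real {a : X k | M ^ (-(1 / 2 : ℝ)) ≤ ‖u N₁ a‖} →
    ∃ N₀ : ℕ, M * Real.exp (x / 2) ≤ N₀ ∧ N₀ ≤ N₁ ∧
      M ^ (KN k) * Real.exp (-ε * x) ≤ (N₀ : ℝ) ^ (KN k) *
        volume.real (WS k N₀ ((N₀ : ℝ) ^ CR) (128 * M / Real.exp (-ε * x)))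

/-- the level sets with the gain `y ^ 2 / Φ (log M)` -/
def T_FIg (Φ : ℝ → ℝ) : Prop :=
  ∀ k : ℕ, 3 ≤ k → ∃ c C : ℝ, 0 < c ∧ ∀ (M : ℝ) (N : ℕ), 2 ≤ M → M ≤ N → (N : ℝ) ≤ M ^ 2 →
    (N : ℝ) ^ (KN k) * volume.real {a : X k | M ^ (-(1 / 2 : ℝ)) ≤ ‖u N a‖} ≤
      C * M ^ (KN k) * Real.exp (-(c * Real.log (N / M) ^ 2 / Φ (Real.log M)))

/-- the critical mean value -/
def T_JJg (Φ : ℝ → ℝ) : Prop :=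
  ∀ k : ℕ, 3 ≤ k → ∃ C : ℝ, ∀ N : ℕ, 2 ≤ N →
    ∫ a : X k, ‖f N a‖ ^ (2 * KN k) ≤
      C * (N : ℝ) ^ (KN k) * (1 + Φ (Real.log N)) ^ (1 / 2 : ℝ)

end Pool.Agent.H79.HF
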