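import Pool.Agent.H79.PL.FI2
import Pool.Agent.H79.HF.Defs

/-!
# The level sets with the gain `y ^ 2 / Φ (log M)` (helper79)
-/

set_option autoImplicit false

open Finset MeasureTheory Filter

namespace Pool.Agent.H79.HF

open Pool.Agent.H24.CL Pool.Agent.H24.LV Pool.Agent.H79.PL

/-- the level sets -/
theorem pf_FIg (Φ : ℝ → ℝ) (hΦ : GainF Φ) (hWT : L_WT) (hFI : E_FI) (hSR : T_SEE Φ)
    (hMX : Pool.Agent.H65.EN.T_MX) : T_FIg Φ := by
  intro k hk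
  obtain ⟨CW, hCW, hW⟩ := hWT k hk
  obtain ⟨CR, hCR, hSR⟩ := hSR k hk
  obtain ⟨K, hK⟩ : ∃ K : ℕ, K = KN k := ⟨_, rfl⟩
  obtain ⟨c1, C1, B, hc1, hC1, hMX⟩ := hMX k hk CR hCR (K + 1)
  have hKr : (0 : ℝ) ≤ K := Nat.cast_nonneg _
  obtain ⟨ε, hε⟩ : ∃ ε : ℝ, ε = 1 / (4 * ((K : ℝ) + 2)) := ⟨_, rfl⟩
  have hεK : ε * ((K : ℝ) + 2) = 1 / 4 := by rw [hε]; field_simp
  have hε0 : 0 < ε := by rw [hε]; positivity
  have hε8 : ε ≤ 1 / 8 := by nlinarith
  obtain ⟨c0, x0, hc0, hx0, hSR⟩ := hSR ε hε0 hε8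
  obtain ⟨c2, hc2⟩ : ∃ c2 : ℝ, c2 = c1 / (2 * ((K : ℝ) + 1)) := ⟨_, rfl⟩
  have hc20 : 0 < c2 := by rw [hc2]; positivity
  have hc2K : c2 * (2 * ((K : ℝ) + 1)) = c1 := by rw [hc2]; field_simp
  obtain ⟨cF, CF, hcF, hF⟩ := hFI k hk c2 hc20
  rw [← hK] at hW hSR hF
  obtain ⟨AA, hAA⟩ : ∃ AA : ℝ, AA = 4 * C1 * 128 ^ (K + 1) * 2048 * (1 + c0) ^ (B + 2) :=
    ⟨_, rfl⟩
  obtain ⟨y0, hy01, hy0⟩ : ∃ y0 : ℝ, 1 ≤ y0 ∧ ∀ y, y0 ≤ y →
      AA * y ^ (2 * (B + 2)) ≤ Real.exp (1 / 4 * y) ∧ x0 ≤ y ∧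
        4 * C1 ≤ Real.exp (c1 / 2 * y) := by
    have h1 := (pow_le_exp AA (1 / 4) (2 * (B + 2)) (by norm_num)).and
      ((eventually_ge_atTop x0).and
        ((pow_le_exp (4 * C1) (c1 / 2) 0 (by positivity)).and (eventually_ge_atTop (1 : ℝ))))
    obtain ⟨y1, hy1⟩ := eventually_atTop.mp h1
    refine ⟨max y1 1, le_max_right _ _, fun y hy => ?_⟩
    obtain ⟨h2, h3, h4, _⟩ := hy1 y ((le_max_left _ _).trans hy)
    refine ⟨h2, h3, ?_⟩
    rwa [pow_zero, mul_one] at h4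
  have hlog2 : 0 < Real.log 2 := Real.log_pos (by norm_num)
  obtain ⟨c, hc⟩ : ∃ c : ℝ, c = min c0 cF := ⟨_, rfl⟩
  have hcpos : 0 < c := by rw [hc]; exact lt_min hc0 hcF
  have hcc0 : c ≤ c0 := by rw [hc]; exact min_le_left _ _
  have hccF : c ≤ cF := by rw [hc]; exact min_le_right _ _
  obtain ⟨E0, hE0⟩ : ∃ E0 : ℝ, E0 = c0 * y0 ^ 2 / Real.log 2 := ⟨_, rfl⟩
  have hE0p : 0 ≤ E0 := by rw [hE0]; positivity
  refine ⟨c, CW * Real.exp E0 + CW * Real.exp 2 + |CF| + Real.exp 1, hcpos, ?_⟩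
  intro M N hM2 hMN hNM
  have hM0' : 0 < M := by linarith
  have hM1 : 1 ≤ M := by linarith
  have hN1' : (1 : ℝ) ≤ N := by linarith
  have hN1 : 1 ≤ N := by exact_mod_cast hN1'
  have hN0 : (0 : ℝ) < N := by linarith
  obtain ⟨L, hL⟩ : ∃ L : ℝ, L = Real.log M := ⟨_, rfl⟩
  have hML : M = Real.exp L := by rw [hL, Real.exp_log hM0']
  have hL2 : Real.log 2 ≤ L := by rw [hL]; exact Real.log_le_log (by norm_num) hM2
  have hL0 : 0 < L := lt_of_lt_of_le hlog2 hL2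
  obtain ⟨y, hy⟩ : ∃ y : ℝ, y = Real.log (N / M) := ⟨_, rfl⟩
  have hNy : (N : ℝ) = M * Real.exp y := by
    rw [hy, Real.exp_log (by positivity)]
    field_simp
  have hyn : 0 ≤ y := by
    rw [hy]
    apply Real.log_nonneg
    rw [le_div_iff₀ hM0']
    linarith
  have hlogN : Real.log N = L + y := by
    rw [hNy, Real.log_mul hM0'.ne' (Real.exp_pos _).ne', Real.log_exp, ← hL]
  have hyL : y ≤ L := by
    have h1 : Real.log N ≤ Real.log (M ^ 2) := Real.log_le_log hN0 hNM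
    rw [Real.log_pow, hlogN, ← hL] at h1
    push_cast at h1
    linarith
  rw [← hy, ← hL, ← hK]
  obtain ⟨v, hv⟩ : ∃ v : ℝ, v = (N : ℝ) ^ K * volume.real {a : X k | M ^ (-(1 / 2 : ℝ)) ≤
    ‖u N a‖} := ⟨_, rfl⟩
  rw [← hv]
  have hMK : 0 < M ^ K := by positivity
  obtain ⟨Q, hQ⟩ : ∃ Q : ℝ, Q = y ^ 2 / Φ L := ⟨_, rfl⟩
  have hΦL : L ≤ Φ L := hΦ.lo L hL2
  have hΦ0 : 0 < Φ L := lt_of_lt_of_le hL0 hΦL
  have hQ0 : 0 ≤ Q := by rw [hQ]; positivity
  have hQe : c * y ^ 2 / Φ L = c * Q := by rw [hQ]; ring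
  rw [hQe]
  -- the trivial bound
  have htriv : v ≤ CW * M ^ K := by
    have h1 := hW N (M ^ (-(1 / 2 : ℝ))) hN1 (Real.rpow_pos_of_pos hM0' _)
    have h2 : (M ^ (-(1 / 2 : ℝ))) ^ (2 * K) = (M ^ K)⁻¹ := by
      rw [← Real.rpow_natCast, ← Real.rpow_mul hM0'.le]
      have : -(1 / 2 : ℝ) * ((2 * K : ℕ) : ℝ) = -(K : ℝ) := by push_cast; ring
      rw [this, Real.rpow_neg hM0'.le, Real.rpow_natCast]
    rw [h2] at h1
    have h3 : v * (M ^ K)⁻¹ ≤ CW := by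
      refine le_trans (le_of_eq ?_) h1
      rw [hv]; ring
    rwa [← div_eq_mul_inv, div_le_iff₀ hMK] at h3
  have hCW0 : 0 ≤ CW := by linarith
  have hE1 : 0 < Real.exp 1 := Real.exp_pos _
  -- the trivial bound suffices if `c Q` is bounded
  have htriv2 : ∀ E : ℝ, c * Q ≤ E → v ≤ (CW * Real.exp E) * M ^ K * Real.exp (-(c * Q)) := by
    intro E hE
    refine htriv.trans ?_
    have h1 : 1 ≤ Real.exp E * Real.exp (-(c * Q)) := by
      rw [← Real.exp_add]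
      exact Real.one_le_exp (by linarith)
    calc CW * M ^ K = CW * M ^ K * 1 := (mul_one _).symm
      _ ≤ CW * M ^ K * (Real.exp E * Real.exp (-(c * Q))) :=
          mul_le_mul_of_nonneg_left h1 (by positivity)
      _ = _ := by ring
  have hall : ∀ z : ℝ, z ≤ CW * Real.exp E0 + CW * Real.exp 2 + |CF| + Real.exp 1 →
      v ≤ z * M ^ K * Real.exp (-(c * Q)) → v ≤ (CW * Real.exp E0 + CW * Real.exp 2 + |CF| +
        Real.exp 1) * M ^ K * Real.exp (-(c * Q)) := by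
    intro z hz h
    refine h.trans ?_
    exact mul_le_mul_of_nonneg_right (mul_le_mul_of_nonneg_right hz hMK.le) (Real.exp_pos _).le
  have hpE0 : 0 ≤ CW * Real.exp E0 := by positivity
  have hpE2 : 0 ≤ CW * Real.exp 2 := by positivity
  have hpCF : 0 ≤ |CF| := abs_nonneg _
  rcases lt_or_ge y y0 with hcase0 | hcase0
  · -- small `y`
    apply hall (CW * Real.exp E0) (by linarith)
    apply htriv2
    rw [hE0]
    have h1 : y ^ 2 ≤ y0 ^ 2 := pow_le_pow_left₀ hyn hcase0.le 2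
    have h3 : Q ≤ y0 ^ 2 / Real.log 2 := by
      rw [hQ]
      exact div_le_div₀ (by positivity) h1 hlog2 (hL2.trans hΦL)
    calc c * Q ≤ c0 * (y0 ^ 2 / Real.log 2) := mul_le_mul hcc0 h3 hQ0 hc0.le
      _ = _ := by ring
  have hy1 : 1 ≤ y := hy01.trans hcase0
  rcases lt_or_ge (c2 * L) y with hcase1 | hcase1
  · -- large `y`
    apply hall |CF| (by linarith)
    have h1 : M ^ (1 + c2) ≤ (N : ℝ) := by
      rw [hML, hNy, hML, ← Real.exp_mul, ← Real.exp_add]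
      apply Real.exp_le_exp.mpr
      linarith
    have h2 := hF M N hM1 h1
    rw [← hv] at h2
    refine h2.trans ?_
    have h3 : M ^ ((K : ℝ) - cF) = M ^ K * Real.exp (-(cF * L)) := by
      rw [Real.rpow_sub hM0', Real.rpow_natCast, div_eq_mul_inv, ← Real.rpow_neg hM0'.le]
      congr 1
      rw [hML, ← Real.exp_mul]
      congr 1
      ring
    rw [h3]
    have h4 : Q ≤ L := by
      rw [hQ, div_le_iff₀ hΦ0]
      nlinarith
    have h5 : Real.exp (-(cF * L)) ≤ Real.exp (-(c * Q)) := by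
      apply Real.exp_le_exp.mpr
      have : c * Q ≤ cF * L := mul_le_mul hccF h4 hQ0 hcF.le
      linarith
    calc CF * (M ^ K * Real.exp (-(cF * L))) ≤ |CF| * (M ^ K * Real.exp (-(cF * L))) :=
          mul_le_mul_of_nonneg_right (le_abs_self _) (by positivity)
      _ ≤ |CF| * (M ^ K * Real.exp (-(c * Q))) := by
          apply mul_le_mul_of_nonneg_left _ hpCF
          exact mul_le_mul_of_nonneg_left h5 hMK.le
      _ = _ := by ring
  rcases le_or_gt (c0 * Q) 2 with hcase2 | hcase2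
  · -- `Q` bounded
    apply hall (CW * Real.exp 2) (by linarith)
    apply htriv2
    have : c * Q ≤ c0 * Q := mul_le_mul_of_nonneg_right hcc0 hQ0
    linarith
  -- the main case
  apply hall (Real.exp 1) (by linarith)
  obtain ⟨H, hH⟩ : ∃ H : ℝ, H = c0 * Q - 1 := ⟨_, rfl⟩
  have hH0 : 0 ≤ H := by rw [hH]; linarith
  have hgoal : v ≤ M ^ K * Real.exp (-H) := by
    by_contra hcon
    rw [not_le] at hcon
    have h1 : M * Real.exp y ≤ (N : ℝ) := le_of_eq hNy.symm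
    have h2 : (N : ℝ) ≤ M * Real.exp (2 * y) := by
      rw [hNy]
      apply mul_le_mul_of_nonneg_left _ hM0'.le
      exact Real.exp_le_exp.mpr (by linarith)
    have h3 : H + 1 ≤ c0 * y ^ 2 / Φ (Real.log M) := by
      rw [hH, hQ, ← hL]
      apply le_of_eq
      ring
    obtain ⟨N₀, hN₀, hN₀N, hSv⟩ := hSR M y H N hM2 (hy0 y hcase0).2.1
      (by rw [← hL]; exact hyL) hH0 h3 h1 h2 (by rw [← hv]; exact hcon.le)
    have hN₀N' : (N₀ : ℝ) ≤ N := by exact_mod_cast hN₀N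
    have hMN₀ : M ≤ N₀ := by
      refine le_trans ?_ hN₀
      have : 1 ≤ Real.exp (y / 2) := Real.one_le_exp (by linarith)
      nlinarith
    have hN₀1 : (1 : ℝ) ≤ N₀ := by linarith
    have hN₀1' : 1 ≤ N₀ := by exact_mod_cast hN₀1
    have hN₀0 : (0 : ℝ) < N₀ := by linarith
    -- the numbers
    obtain ⟨U, hU⟩ : ∃ U : ℝ, U = 1 + 2 * L := ⟨_, rfl⟩
    have hU1 : 1 ≤ U := by rw [hU]; linarith
    have hU2 : U ≤ (1 + c0) * y ^ 2 := by
      have h4 : 2 * Φ L < c0 * y ^ 2 := by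
        rw [hQ, ← mul_div_assoc, lt_div_iff₀ hΦ0] at hcase2
        exact hcase2
      have h5 : 1 ≤ y ^ 2 := one_le_pow₀ hy1
      rw [hU]
      nlinarith
    have hbig : 4 * C1 * 128 ^ (K + 1) * 2048 * U ^ (B + 2) ≤ Real.exp (1 / 4 * y) := by
      refine le_trans ?_ (hy0 y hcase0).1
      rw [hAA]
      have h6 : U ^ (B + 2) ≤ (1 + c0) ^ (B + 2) * y ^ (2 * (B + 2)) := by
        calc U ^ (B + 2) ≤ ((1 + c0) * y ^ 2) ^ (B + 2) :=
              pow_le_pow_left₀ (by linarith) hU2 _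
          _ = _ := by rw [mul_pow, ← pow_mul]
      calc 4 * C1 * 128 ^ (K + 1) * 2048 * U ^ (B + 2) ≤
            4 * C1 * 128 ^ (K + 1) * 2048 * ((1 + c0) ^ (B + 2) * y ^ (2 * (B + 2))) :=
            mul_le_mul_of_nonneg_left h6 (by positivity)
        _ = _ := by ring
    have hexp : 4 * C1 ≤ Real.exp (c1 / 2 * L) := (hy0 L (hcase0.trans hyL)).2.2
    have hyL2 : y * (2 * ((K : ℝ) + 1)) ≤ c1 * L := by
      calc y * (2 * ((K : ℝ) + 1)) ≤ (c2 * L) * (2 * ((K : ℝ) + 1)) :=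
            mul_le_mul_of_nonneg_right hcase1 (by positivity)
        _ = (c2 * (2 * ((K : ℝ) + 1))) * L := by ring
        _ = c1 * L := by rw [hc2K]
    have hlogN₀ : Real.log N₀ ≤ 2 * L := by
      have : Real.log N₀ ≤ Real.log N := Real.log_le_log hN₀0 hN₀N'
      linarith
    have hlogN₀0 : 0 ≤ Real.log N₀ := Real.log_nonneg hN₀1
    obtain ⟨n1, n2, n3⟩ := main_num K B C1 c1 ε M L y N₀ N U hC1 hc1 hεK hε0 hε8 hML hy1 hN₀ hN₀N'
      hNy hU1 (by rw [hU]; linarith) (by linarith) hbig hexp hyL2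
    have hκ0 : 0 < Real.exp (-ε * y) := Real.exp_pos _
    have hκ1 : Real.exp (-ε * y) ≤ 1 := Real.exp_le_one_iff.mpr (by nlinarith)
    have hM'1 : 1 ≤ 128 * M / Real.exp (-ε * y) := by
      rw [le_div_iff₀ hκ0]
      linarith
    have h9 := hMX N₀ (128 * M / Real.exp (-ε * y)) hN₀1' hM'1 n2
    have h10 : M ^ K * Real.exp (-ε * y) ≤ (N₀ : ℝ) ^ K * (C1 * ((N₀ : ℝ) ^ (-c1) +
        (1 + Real.log N₀) ^ B * (128 * M / Real.exp (-ε * y) / N₀) ^ (K + 1))) := by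
      refine hSv.trans ?_
      exact mul_le_mul_of_nonneg_left h9 (by positivity)
    linarith
  refine hgoal.trans ?_
  have h11 : Real.exp (-H) ≤ Real.exp 1 * Real.exp (-(c * Q)) := by
    rw [← Real.exp_add]
    apply Real.exp_le_exp.mpr
    have : c * Q ≤ c0 * Q := mul_le_mul_of_nonneg_right hcc0 hQ0
    rw [hH]
    linarith
  calc M ^ K * Real.exp (-H) ≤ M ^ K * (Real.exp 1 * Real.exp (-(c * Q))) :=
        mul_le_mul_of_nonneg_left h11 hMK.le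
    _ = _ := by ring

end Pool.Agent.H79.HF
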