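import Pool.Agent.H79.PL.FI2
import Pool.Agent.H79.HF.Defs

/-!
# The centres of the rich stars are seen (helper79)
-/

set_option autoImplicit false

open Finset MeasureTheory Filter

namespace Pool.Agent.H79.HF

open Pool.Agent.H24.CL Pool.Agent.H24.LV Pool.Agent.H79.PL

/-- from the rich stars to the seen points -/
theorem see_of_srp (Φ : ℝ → ℝ) (hSR : T_SRPg Φ) (hWE : Pool.Agent.H31.PL.T_WEX) : T_SEE Φ := by
  intro k hk
  obtain ⟨C3, CR, M0, hC3, hCR, hM0, hWE⟩ := hWE k hk 3 (by norm_num)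
  refine ⟨CR, hCR, fun ε hε0 hε8 => ?_⟩
  obtain ⟨c0, x1, hc0, hx1, hSR⟩ := hSR k hk C3 ε hC3 hε0 (by linarith)
  obtain ⟨x2, hx2⟩ : ∃ x2 : ℝ, ∀ y, x2 ≤ y → 2048 ≤ Real.exp (3 / 8 * y) := by
    obtain ⟨y1, hy1⟩ := eventually_atTop.mp (pow_le_exp 2048 (3 / 8) 0 (by norm_num))
    refine ⟨y1, fun y hy => ?_⟩
    have := hy1 y hy
    rwa [pow_zero, mul_one] at this
  refine ⟨c0, max x1 (max x2 (Real.log M0)), hc0, hx1.trans (le_max_left _ _), ?_⟩
  intro M x H N₁ hM2 hx hxL hH0 hH hN1 hN2 hm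
  have hxx1 : x1 ≤ x := (le_max_left _ _).trans hx
  have hxx2 : x2 ≤ x := ((le_max_left _ _).trans (le_max_right _ _)).trans hx
  have hxM0 : Real.log M0 ≤ x := ((le_max_right _ _).trans (le_max_right _ _)).trans hx
  have hx1' : 1 ≤ x := hx1.trans hxx1
  have hM0' : 0 < M := by linarith
  obtain ⟨N₀, S, hN₀, hN₀N, hSp, hSD, hSv⟩ := hSR M x H N₁ hM2 hxx1 hxL hH0 hH hN1 hN2 hm
  refine ⟨N₀, hN₀, hN₀N, hSv.trans ?_⟩
  apply mul_le_mul_of_nonneg_left _ (by positivity)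
  refine measureReal_mono ?_
  have hML : M = Real.exp (Real.log M) := (Real.exp_log hM0').symm
  have hMN₀ : M ≤ N₀ := by
    refine le_trans ?_ hN₀
    have : 1 ≤ Real.exp (x / 2) := Real.one_le_exp (by linarith)
    nlinarith
  have hκ1 : Real.exp (-ε * x) ≤ 1 := Real.exp_le_one_iff.mpr (by nlinarith)
  have hκM : 1 / M ≤ Real.exp (-ε * x) := by
    rw [hML, one_div, ← Real.exp_neg]
    apply Real.exp_le_exp.mpr
    nlinarith
  have hM0M : M0 ≤ M := by
    have h7 : Real.log M0 ≤ Real.log M := hxM0.trans hxL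
    exact (Real.log_le_log_iff (by linarith) hM0').mp h7
  have n1 : 2048 * M / Real.exp (-ε * x) ≤ N₀ := by
    have h1 : 2048 * M / Real.exp (-ε * x) = 2048 * M * Real.exp (ε * x) := by
      rw [neg_mul, Real.exp_neg]
      field_simp
    rw [h1]
    refine le_trans ?_ hN₀
    have h2 : Real.exp (3 / 8 * x) * Real.exp (ε * x) ≤ Real.exp (x / 2) := by
      rw [← Real.exp_add]
      apply Real.exp_le_exp.mpr
      nlinarith
    calc 2048 * M * Real.exp (ε * x) = M * (2048 * Real.exp (ε * x)) := by ring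
      _ ≤ M * (Real.exp (3 / 8 * x) * Real.exp (ε * x)) := by
          apply mul_le_mul_of_nonneg_left _ hM0'.le
          exact mul_le_mul_of_nonneg_right (hx2 x hxx2) (Real.exp_pos _).le
      _ ≤ M * Real.exp (x / 2) := mul_le_mul_of_nonneg_left h2 hM0'.le
  rintro w ⟨b, x', hx', hw, hr⟩
  rw [← hw]
  have hNC4 : (N₀ : ℝ) ≤ M ^ (3 : ℝ) := by
    have h1 : (N₀ : ℝ) ≤ N₁ := by exact_mod_cast hN₀N
    refine (h1.trans hN2).trans ?_
    have h2 : M ^ (3 : ℝ) = M * (Real.exp (Real.log M) * Real.exp (Real.log M)) := by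
      rw [Real.exp_log hM0']
      have : (3 : ℝ) = ((3 : ℕ) : ℝ) := by norm_num
      rw [this, Real.rpow_natCast]
      ring
    rw [h2, ← Real.exp_add]
    apply mul_le_mul_of_nonneg_left _ hM0'.le
    exact Real.exp_le_exp.mpr (by linarith)
  have h8 := hWE M (Real.exp (-ε * x)) N₀ S b x' hM0M hκM hκ1 n1 hNC4 hSp hSD hx' hr
  refine WS_mono k N₀ (M ^ CR) ((N₀ : ℝ) ^ CR) _ ?_ h8
  exact Real.rpow_le_rpow hM0'.le hMN₀ (by linarith)

end Pool.Agent.H79.HF
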